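import Pool.Agent.Helper26.KN.Goals

/-! Packet YB: `Yn q w N 1 = phi q w N 2`. -/

namespace KN.PkYB

open Finset PowerSeries Pool.Agent.Helper97.RCK

theorem psi_zero {V : Type} [Fintype V] [DecidableEq V] (q w : ℝ) {R : Finset V} {u : V}
    (hu : u ∉ R) (a b : V) : Psi q w R ∅ a b = q * Psi q w R {u} a b := by
  unfold Psi
  rw [Finset.mul_sum]
  refine Finset.sum_congr rfl (fun S hS => ?_)
  rw [Finset.union_empty, kap_flip hu (Finset.mem_powerset.1 (Finset.mem_filter.1 hS).1)]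
  have : R ∪ {u} = insert u R := by
    ext x; simp
  rw [this]
  ring

theorem yb : G_PSI -> G_YB := by
  intro hP q w hq hw N hN
  obtain ⟨M, rfl⟩ : ∃ M, N = M + 3 := ⟨N - 3, by omega⟩
  have h0 := hP (Fin (M + 3)) q w (M + 3) ∅ ∅ ⟨0, by omega⟩ ⟨1, by omega⟩ hw (by simp) (by simp)
    (by simp) (by simp) (by simp)
  have h1 := hP (Fin (M + 3)) q w (M + 3) ∅ {⟨2, by omega⟩} ⟨0, by omega⟩ ⟨1, by omega⟩ hw
    (by simp) (by simp) (by simp) (by simp) (by simp)
  have e0 := h0.1 (by simp) (by simp)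
  have e1 := h1.1 (by simp) (by simp)
  have e2 := psi_zero (V := Fin (M + 3)) q w (R := ∅) (u := ⟨2, by omega⟩) (by simp)
    ⟨0, by omega⟩ ⟨1, by omega⟩
  rw [e0, e1] at e2
  have e3 : Yn q w (M + 3) (∅ : Finset (Fin (M + 3))).card = q * phi q w (M + 3) 2 := by
    simp [Yn]
  rw [e3] at e2
  have hc : ({⟨2, by omega⟩} : Finset (Fin (M + 3))).card = 1 := by simp
  rw [hc] at e2
  have hne : w / (1 + w) * q ≠ 0 := by positivity
  have e4 : (w / (1 + w) * q) * Yn q w (M + 3) 1 = (w / (1 + w) * q) * phi q w (M + 3) 2 := by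
    linear_combination -e2
  exact mul_left_cancel₀ hne e4

end KN.PkYB
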